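import Mathlib
import Pool.Agent.R603.AH.Final

set_option autoImplicit false

/-!
# MP_0c3240_lc, Q1: automatic homeomorphicity of the clones of reducts of pure equality

Let `A` be a relational structure with domain `ℕ` that is first-order definable in `(ℕ, =)`. Then
every clone isomorphism from `Pol(A)` onto a closed clone is a homeomorphism.

Idea of the proof. (1) The unary part of the target acts on `ℕ`; since the target is closed, the
coinfinite injections that converge to the identity must act as the identity in the limit, which
gives every point a finite support (no small index property is needed). (2) The graph of the
isomorphism is closed. (3) Bounded behaviour along ultrafilters: by Ramsey's theorem finitely many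
kernels suffice up to injections, and gluing the limit operation to the canonical one bounds the
support of the value. (4) The same for the inverse.
-/

namespace Pool.Agent.Results.MP_0c3240_lc.AutoHomeo

open Pool.Agent.R603.AH

/-- For every structure `A` first-order definable in `(ℕ, =)`, the clone `Pol(A)` has automatic
homeomorphicity with respect to the class of all closed clones. -/
theorem result (A : Set (Σ k : ℕ, Set (Fin k → ℕ))) (hA : DefinableInEquality A) :
    AutomaticHomeomorphicity (Pol A) :=
  main A hA

end Pool.Agent.Results.MP_0c3240_lc.AutoHomeo
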